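import Pool.Agent.Q67.B2.Disc

/-!
# A continuously differentiable Besicovitch cylindrical transformation over a minimal rotation of
the two-dimensional torus

With `β ∈ (0, 1)` the root of `x ^ 3 + x ^ 2 = 1` and integers `A k, B k, C k` such that
`β ^ k = A k + B k β + C k β ^ 2`, the rotation vector is `α = (β, β ^ 2)` and the function is
`φ (x, y) = ∑ β ^ (3 k / 4) sin (2 π (B (k + 8) x + C (k + 8) y))`.
-/

noncomputable section

namespace Pool.Agent.Results.MP_742cc2_an.COneExample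

open Filter Topology Pool.Agent.Q67
open scoped ContDiff

/-- the torus `ℝ^2 / ℤ^2` -/
abbrev Tor : Type := Fin 2 → UnitAddCircle

/-- the projection `ℝ^2 → 𝕋^2` -/
def proj (x : Fin 2 → ℝ) : Tor := fun i => (x i : UnitAddCircle)

/-- the cylindrical transformation `T_φ (x, t) = (x + α, t + φ x)`, as a bijection of
`𝕋^2 × ℝ` -/
def cyl (α : Fin 2 → ℝ) (φ : Tor → ℝ) : Equiv.Perm (Tor × ℝ) where
  toFun p := (p.1 + proj α, p.2 + φ p.1)
  invFun p := (p.1 - proj α, p.2 - φ (p.1 - proj α))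
  left_inv p := by ext <;> simp
  right_inv p := by ext <;> simp

/-- `T` has a dense orbit -/
def Transitive (T : Equiv.Perm (Tor × ℝ)) : Prop :=
  ∃ p, Dense (Set.range (fun n : ℤ => (T ^ n) p))

/-- the orbit of `p` is discrete: the second coordinates tend to infinity in absolute value -/
def DiscreteOrbit (T : Equiv.Perm (Tor × ℝ)) (p : Tor × ℝ) : Prop :=
  Tendsto (fun n : ℤ => |((T ^ n) p).2|) cofinite atTop

/-- Besicovitch transformations -/
def Besicovitch (T : Equiv.Perm (Tor × ℝ)) : Prop :=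
  Transitive T ∧ ∃ p, DiscreteOrbit T p

/-- the sums along the orbit of `x` -/
def S (α : Fin 2 → ℝ) (φ : Tor → ℝ) (n : ℤ) (x : Tor) : ℝ := ((cyl α φ ^ n) (x, 0)).2

variable {α : Fin 2 → ℝ} {φ : Tor → ℝ}

lemma cyl_pow (n : ℤ) (x : Tor) (t : ℝ) :
    (cyl α φ ^ n) (x, t) = (x + n • proj α, t + S α φ n x) := by
  unfold S
  induction n using Int.induction_on with
  | zero => simp
  | succ n ih =>
    rw [add_comm (n:ℤ) 1, zpow_add, zpow_one, Equiv.Perm.mul_apply, Equiv.Perm.mul_apply, ih]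
    have h0 : ((cyl α φ ^ (n:ℤ)) (x, 0)).1 = x + (n:ℤ) • proj α := by
      clear ih
      induction n with
      | zero => simp
      | succ n ih =>
        rw [Nat.cast_succ, add_comm (n:ℤ) 1, zpow_add, zpow_one, Equiv.Perm.mul_apply]
        show ((cyl α φ ^ (n:ℤ)) (x, 0)).1 + proj α = _
        rw [ih]; module
    ext1
    · show x + (n:ℤ) • proj α + proj α = _
      module
    · show t + ((cyl α φ ^ (n:ℤ)) (x, 0)).2 + φ (x + (n:ℤ) • proj α) =
        t + (((cyl α φ ^ (n:ℤ)) (x, 0)).2 + φ ((cyl α φ ^ (n:ℤ)) (x, 0)).1)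
      rw [h0]; ring
  | pred n ih =>
    rw [show -(n:ℤ) - 1 = -1 + -(n:ℤ) by ring, zpow_add, zpow_neg_one, Equiv.Perm.mul_apply,
      Equiv.Perm.mul_apply, ih]
    have h0 : ((cyl α φ ^ (-(n:ℤ))) (x, 0)).1 = x + (-(n:ℤ)) • proj α := by
      clear ih
      induction n with
      | zero => simp
      | succ n ih =>
        rw [show -((n + 1 : ℕ) : ℤ) = -1 + -(n:ℤ) by push_cast; ring, zpow_add, zpow_neg_one,
          Equiv.Perm.mul_apply]
        show ((cyl α φ ^ (-(n:ℤ))) (x, 0)).1 - proj α = _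
        rw [ih]; module
    ext1
    · show x + (-(n:ℤ)) • proj α - proj α = _
      module
    · show t + ((cyl α φ ^ (-(n:ℤ))) (x, 0)).2 - φ (x + (-(n:ℤ)) • proj α - proj α) =
        t + (((cyl α φ ^ (-(n:ℤ))) (x, 0)).2 - φ (((cyl α φ ^ (-(n:ℤ))) (x, 0)).1 - proj α))
      rw [h0]; ring

lemma S_zero (x : Tor) : S α φ 0 x = 0 := by simp [S]

lemma S_add (m n : ℤ) (x : Tor) : S α φ (m + n) x = S α φ m x + S α φ n (x + m • proj α) := by
  have h1 := cyl_pow (α := α) (φ := φ) (m + n) x 0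
  rw [add_comm m n, zpow_add, Equiv.Perm.mul_apply, cyl_pow m, cyl_pow n] at h1
  have h2 := congrArg Prod.snd h1
  simp only [zero_add] at h2
  rw [add_comm n m] at h2
  exact h2.symm

lemma S_one (x : Tor) : S α φ 1 x = φ x := by
  unfold S
  rw [zpow_one]
  show 0 + φ x = φ x
  ring

lemma S_succ (n : ℤ) (x : Tor) : S α φ (n + 1) x = S α φ n x + φ (x + n • proj α) := by
  rw [S_add, S_one]

lemma S_cont (hφ : Continuous φ) (n : ℤ) : Continuous (S α φ n) := by
  induction n using Int.induction_on with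
  | zero =>
    have : S α φ 0 = fun _ => 0 := funext S_zero
    rw [this]
    exact continuous_const
  | succ n ih =>
    have : S α φ (n + 1) = fun x => S α φ n x + φ (x + (n:ℤ) • proj α) := funext (S_succ _)
    rw [this]
    fun_prop
  | pred n ih =>
    have : S α φ (-(n:ℤ) - 1) = fun x => S α φ (-(n:ℤ)) x - φ (x + (-(n:ℤ) - 1) • proj α) := by
      funext x
      have := S_succ (α := α) (φ := φ) (-(n:ℤ) - 1) x
      rw [sub_add_cancel] at this
      linarith
    rw [this]
    fun_prop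

/-- reflection: the sums of an odd function -/
lemma S_odd (hφ : ∀ x, φ (-x) = - φ x) (n : ℤ) (x : Tor) :
    S α φ n (-(x + (n - 1) • proj α)) = - S α φ n x := by
  induction n using Int.induction_on generalizing x with
  | zero => simp [S_zero]
  | succ n ih =>
    rw [add_comm (n:ℤ) 1, S_add, S_one, add_comm 1 (n:ℤ), S_succ, hφ]
    have e : -(x + ((n:ℤ) + 1 - 1) • proj α) + (1:ℤ) • proj α = -(x + ((n:ℤ) - 1) • proj α) := by
      module
    rw [e, ih]
    have e2 : x + ((n:ℤ) + 1 - 1) • proj α = x + (n:ℤ) • proj α := by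
      rw [add_sub_cancel_right]
    rw [e2]; ring
  | pred n ih =>
    have h1 := S_succ (α := α) (φ := φ) (-(n:ℤ) - 1) x
    rw [sub_add_cancel] at h1
    have h2 := S_add (α := α) (φ := φ) 1 (-(n:ℤ) - 1) (-(x + (-(n:ℤ) - 1) • proj α))
    rw [show (1:ℤ) + (-(n:ℤ) - 1) = -(n:ℤ) by ring, S_one, ih, hφ] at h2
    have e : -(x + (-(n:ℤ) - 1) • proj α) + (1:ℤ) • proj α = -(x + (-(n:ℤ) - 1 - 1) • proj α) := by
      module
    rw [e] at h2
    linarith

lemma proj_eq (x : Fin 2 → ℝ) : proj x = BC.pr x := rfl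

/-- **Main theorem.** There are a minimal rotation of the two-dimensional torus and a `C^1`
function whose cylindrical transformation is Besicovitch. -/
theorem result : ∃ (α : Fin 2 → ℝ) (φ : Tor → ℝ),
    LinearIndependent ℚ (Fin.cons (1:ℝ) α : Fin 3 → ℝ) ∧
    ContDiff ℝ 1 (fun x : Fin 2 → ℝ => φ (proj x)) ∧
    Besicovitch (cyl α φ) := by
  have hdis : Tendsto (fun n : ℤ => |S B2.al B2.phi n 0|) cofinite atTop := by
    apply B2.discrete (S := fun n => S B2.al B2.phi n 0) (S_zero 0)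
    intro n
    have := S_succ (α := B2.al) (φ := B2.phi) n 0
    rw [zero_add] at this
    exact this
  refine ⟨B2.al, B2.phi, B2.indep, B2.phi_smooth, ?_, ((0 : Tor), 0), ?_⟩
  · obtain ⟨p, hp⟩ := B2.dense_orbit (proj B2.al) (S B2.al B2.phi) (S_cont B2.phi_cont)
      S_add (fun n x => ⟨_, S_odd B2.phi_neg n x⟩) B2.dense_rot 0 hdis
    refine ⟨p, ?_⟩
    have e : (fun n : ℤ => (cyl B2.al B2.phi ^ n) p) =
        fun n : ℤ => (p.1 + n • proj B2.al, p.2 + S B2.al B2.phi n p.1) := by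
      funext n
      rw [← cyl_pow n p.1 p.2]
    rw [e]
    exact hp
  · unfold DiscreteOrbit
    have e : (fun n : ℤ => |((cyl B2.al B2.phi ^ n) ((0 : Tor), 0)).2|) =
        fun n : ℤ => |S B2.al B2.phi n 0| := rfl
    rw [e]
    exact hdis

end Pool.Agent.Results.MP_742cc2_an.COneExample
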